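import Pool.Agent.V1138.BR.Main

/-!
# A finite set of fixed points consists of extinction probability vectors

The process (`pop`, `law`) and the generating function (`gen`) are those of the starting library
(`Pool.Agent.H632R3.BranchGen`): `law μ` is the law of an independent family `ω (n, y, i)` of
offspring vectors, `ω (n, y, i)` with law `μ y`, and `pop x ω n` is generation `n` of the process
started from one individual of type `x`,
`pop x ω (n + 1) = ∑_y ∑_{i < pop x ω n y} ω (n, y, i)`.

The proof. Let `s` be a fixed point. The product martingale `∏_y s_y ^ Z_{n,y}` converges to a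
limit `M`, and all the vectors `E M ^ k`, `k ≥ 1`, are fixed points. If there are only finitely many
fixed points, then two of these vectors coincide, so that `M` is zero or one and
`s = P (M = 1) ≤ q (A_ε)`, where `A_ε = {y | s_y ≤ 1 - ε}`. As the vectors `q (A_ε)` are fixed points,
they do not depend on `ε` if `ε` is small. Call this vector `b`. On the event of extinction in all the
sets `A_ε` the lines of descent leave all finite subsets of `{s < 1}`, and the intermediate value
theorem for the solutions of the equations restricted to finite sets of types, with the boundary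
values `(1 - u) s + u b`, and a compactness argument show that between `s` and `b` there is a continuum
of fixed points if `s ≠ b`. So `s = b = q (A_ε)`.
-/

open Filter Topology MeasureTheory
open Pool.Agent.H632R3.Branch (gen Sample pop law)
open scoped Pool.Agent.H632R3.Branch

noncomputable section

namespace Pool.Agent.Results.MP_f48e0c_pr.FiniteFixedPoints

variable {X : Type}

open Classical in
/-- The number `∑_{y ∈ A} z_y` of the individuals of the population `z` with type in `A`. -/
def numIn (A : Set X) (z : X →₀ ℕ) : ℕ := z.sum fun y k => if y ∈ A then k else 0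

/-- The vector `q(A)` of the probabilities of extinction in the set `A`: the `x`-th coordinate is the
probability that the number of individuals with type in `A` in generation `n` tends to zero
for `n → ∞`, when the process starts with one individual of type `x`. -/
def extinctionVector (μ : X → PMF (X →₀ ℕ)) (A : Set X) (x : X) : ℝ :=
  (law μ).real {ω | Tendsto (fun n => numIn A (pop x ω n)) atTop (𝓝 0)}

/-- The set `Ext` of the extinction probability vectors. -/
def Ext (μ : X → PMF (X →₀ ℕ)) : Set (X → ℝ) := Set.range (extinctionVector μ)

/-- The set `S` of the fixed points of the generating function in `[0, 1] ^ X`. -/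
def S (μ : X → PMF (X →₀ ℕ)) : Set (X → ℝ) := {s | (∀ x, 0 ≤ s x ∧ s x ≤ 1) ∧ gen μ s = s}

/-- all the numbers of individuals with types in `A` vanish -/
theorem numIn_eq_zero (A : Set X) (z : X →₀ ℕ) : numIn A z = 0 ↔ ∀ y ∈ A, z y = 0 := by
  classical
  unfold numIn Finsupp.sum
  rw [Finset.sum_eq_zero_iff]
  constructor
  · intro h y hy
    by_contra hne
    have := h y (Finsupp.mem_support_iff.2 hne)
    dsimp only at this
    rw [if_pos hy] at this
    exact hne this
  · intro h y _
    dsimp only
    split_ifs with hy
    · exact h y hy
    · rfl

theorem extinctionVector_eq [Countable X] (μ : X → PMF (X →₀ ℕ)) (A : Set X) :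
    extinctionVector μ A = Pool.Agent.V1138.BR.beta μ A := by
  funext x
  unfold extinctionVector Pool.Agent.V1138.BR.beta
  congr 1
  ext ω
  rw [Pool.Agent.V1138.BR.mem_Dev]
  have h1 : (Tendsto (fun n => numIn A (pop x ω n)) atTop (𝓝 0)) ↔
      ∃ K, ∀ n, K ≤ n → numIn A (pop x ω n) = 0 := by
    rw [nhds_discrete, tendsto_pure, eventually_atTop]
  refine h1.trans ?_
  simp only [numIn_eq_zero]
  rfl

/-- **There is no multitype Galton-Watson process with countably many types and
`|Ext| < |S| < ∞`: if the set `S` of the fixed points of the generating function is finite, then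
`S = Ext`.** -/
theorem result (X : Type) [Countable X] (μ : X → PMF (X →₀ ℕ)) (hfin : (S μ).Finite) :
    S μ = Ext μ := by
  ext s
  constructor
  · rintro ⟨hs, fs⟩
    obtain ⟨A, hA⟩ := Pool.Agent.V1138.BR.exists_beta μ hfin hs fs
    exact ⟨A, by rw [hA]; exact extinctionVector_eq μ A⟩
  · rintro ⟨A, rfl⟩
    rw [extinctionVector_eq]
    exact ⟨Pool.Agent.V1138.BR.beta_box μ A, Pool.Agent.V1138.BR.beta_fixed μ A⟩

end Pool.Agent.Results.MP_f48e0c_pr.FiniteFixedPoints
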